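import Pool.Agent.H38.O1.N3

set_option autoImplicit false

/-!
The end game of case O1 after K7 (proof of helper12): if `th(a, b)` fixes `b` for all `a, b` then
`T_(xy) = T_x T_y`, so a simple automorphic loop is commutative or associative.
-/

namespace ALoop

open Equiv

variable {Q : Type*} {G : Subgroup (Perm Q)} {L : Q → Perm Q} {J : Perm Q} {e : Q}

/-- `a(x, y) = L_(xy)⁻¹ L_x L_y` -/
def Al (L : Q → Perm Q) (x y : Q) : Perm Q := (L (L x y))⁻¹ * L x * L y

namespace AL0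

section

variable (h : AL0 G L J e) (hK : ∀ a b, Th L J a b b = b)

include h hK

theorem eg_fix_a (a b : Q) : Th L J a b a = a := by
  have h1 := hK (J b) (J a)
  rw [h.Th_inv a b, Perm.inv_eq_iff_eq] at h1
  have h2 := h.fixJ (h.Th_mem a b) (h.Th_e a b) h1.symm
  rwa [h.JJ] at h2

theorem eg_TL (a b : Q) : Th L J a b * L a = L a * Th L J a b :=
  h.comL (h.Th_mem a b) (h.Th_e a b) (h.eg_fix_a hK a b)

theorem eg_TL' (a b : Q) : Th L J a b * L b = L b * Th L J a b :=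
  h.comL (h.Th_mem a b) (h.Th_e a b) (hK a b)

theorem eg_TR (a b : Q) : Th L J a b * Rt L J a = Rt L J a * Th L J a b :=
  h.comR (h.Th_mem a b) (h.Th_e a b) (h.eg_fix_a hK a b)

theorem eg_TR' (a b : Q) : Th L J a b * Rt L J b = Rt L J b * Th L J a b :=
  h.comR (h.Th_mem a b) (h.Th_e a b) (hK a b)

theorem eg_TT (a b : Q) : Th L J a b * Tx L J b = Tx L J b * Th L J a b :=
  (h.Tx_cen b _ (h.Th_mem a b) (h.Th_e a b) (hK a b)).symm

/-- `th(a, b⁻¹) = th(a, b)⁻¹` -/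
theorem eg_K1 (a b : Q) : (Th L J a (J b))⁻¹ = Th L J a b := by
  have h1 := h.K1 a b
  rw [h.eg_TT hK] at h1
  exact mul_left_cancel h1

/-- `th(b, a⁻¹) = th(a, b)` -/
theorem eg_K2 (a b : Q) : Th L J b (J a) = Th L J a b := by
  have h1 := h.K2 a b
  rw [h.eg_TT hK] at h1
  exact mul_left_cancel h1

/-- `th(b, a) = th(a, b)⁻¹` -/
theorem eg_A (a b : Q) : Th L J b a = (Th L J a b)⁻¹ := by
  rw [← h.eg_K2 hK a b, h.eg_K1 hK b a]

/-- inverse property -/
theorem eg_IP (b : Q) : Rt L J b * Rt L J (J b) = 1 := by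
  have hc : ∀ a, Rt L J b * Rt L J (J b) * L a = L a * (Rt L J b * Rt L J (J b)) := by
    intro a
    have h1 : (L a)⁻¹ * Rt L J b * L a = Rt L J b * (Th L J a b)⁻¹ := by
      unfold Th; group
    have h2 : (L a)⁻¹ * Rt L J (J b) * L a = Rt L J (J b) * Th L J a b := by
      rw [← h.eg_K1 hK a b]; unfold Th; group
    have h3 : Th L J a b * Rt L J (J b) = Rt L J (J b) * Th L J a b :=
      h.comR (h.Th_mem a b) (h.Th_e a b) (h.fixJ (h.Th_mem a b) (h.Th_e a b) (hK a b))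
    calc Rt L J b * Rt L J (J b) * L a =
        L a * ((L a)⁻¹ * Rt L J b * L a) * ((L a)⁻¹ * Rt L J (J b) * L a) := by group
      _ = L a * (Rt L J b * (Th L J a b)⁻¹) * (Rt L J (J b) * Th L J a b) := by rw [h1, h2]
      _ = L a * (Rt L J b * (Th L J a b)⁻¹) * (Th L J a b * Rt L J (J b)) := by rw [h3]
      _ = L a * (Rt L J b * Rt L J (J b)) := by group
  have he : (Rt L J b * Rt L J (J b)) e = e := by
    rw [Perm.mul_apply, h.Rt_e, h.Rt_app, h.JL]
  ext a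
  have h1 := congrArg (fun p : Perm Q => p e) (hc a)
  change (Rt L J b * Rt L J (J b) * L a) e = (L a * (Rt L J b * Rt L J (J b))) e at h1
  rw [Perm.mul_apply, h.Le, Perm.mul_apply (L a), he, h.Le] at h1
  rw [h1, Perm.one_apply]

theorem eg_RJ (b : Q) : Rt L J (J b) = (Rt L J b)⁻¹ :=
  eq_inv_of_mul_eq_one_right (h.eg_IP hK b)

/-- `R_b = J L_b⁻¹ J` -/
theorem eg_R (b : Q) : Rt L J b = J * (L b)⁻¹ * J := by
  have h1 := h.eg_RJ hK b
  rw [← h.JLJ] at h1
  rw [← inv_inv (Rt L J b), ← h1, mul_inv_rev, mul_inv_rev, h.Jinv, mul_assoc]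

omit hK in
theorem al_mem (x y : Q) : Al L x y ∈ G :=
  G.mul_mem (G.mul_mem (G.inv_mem (h.memL _)) (h.memL _)) (h.memL _)

omit hK in
theorem al_e (x y : Q) : Al L x y e = e := by
  unfold Al
  simp only [Perm.mul_apply]
  rw [h.Le, Perm.inv_eq_iff_eq, h.Le]

omit hK in
theorem al_x (x y : Q) : Al L x y x = x := by
  unfold Al
  simp only [Perm.mul_apply]
  rw [h.flex', Perm.inv_eq_iff_eq]

theorem al_y (x y : Q) : Al L x y y = y := by
  have h1 := hK x y
  unfold Th at h1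
  simp only [Perm.mul_apply] at h1
  rw [Perm.inv_eq_iff_eq, Perm.inv_eq_iff_eq, h.Rt_app, h.Rt_app] at h1
  unfold Al
  simp only [Perm.mul_apply]
  rw [h1, Perm.inv_eq_iff_eq]

theorem al_xy (x y : Q) : Al L x y (L x y) = L x y := by
  rw [h.aut (h.al_mem x y) (h.al_e x y), h.al_x, h.al_y hK]

omit h hK in
theorem al_LL (x y : Q) : L x * L y = L (L x y) * Al L x y := by
  unfold Al; group

theorem al_RR (x y : Q) : Rt L J y * Rt L J x = Rt L J (L x y) * (Al L x y)⁻¹ := by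
  have h1 := h.comJ _ (G.inv_mem (h.al_mem x y)) (by rw [Perm.inv_eq_iff_eq, h.al_e])
  have h2 : (Al L x y)⁻¹ * Rt L J (L x y) = Rt L J (L x y) * (Al L x y)⁻¹ :=
    h.comR (G.inv_mem (h.al_mem x y)) (by rw [Perm.inv_eq_iff_eq, h.al_e])
      (by rw [Perm.inv_eq_iff_eq, h.al_xy hK])
  rw [← h2, h.eg_R hK x, h.eg_R hK y, h.eg_R hK (L x y)]
  calc J * (L y)⁻¹ * J * (J * (L x)⁻¹ * J) = J * (L y)⁻¹ * (J * J) * (L x)⁻¹ * J := by group
    _ = J * (L x * L y)⁻¹ * J := by rw [h.JJ1]; group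
    _ = J * (L (L x y) * Al L x y)⁻¹ * J := by rw [al_LL (L := L) x y]
    _ = (J * (Al L x y)⁻¹) * (L (L x y))⁻¹ * J := by group
    _ = (Al L x y)⁻¹ * (J * (L (L x y))⁻¹ * J) := by rw [← h1]; group

theorem e3a (x y z : Q) : L x (L y z) = Al L x y (L (L x y) z) := by
  have h1 : Al L x y * L (L x y) = L (L x y) * Al L x y :=
    h.comL (h.al_mem x y) (h.al_e x y) (h.al_xy hK x y)
  have h2 := congrArg (fun p : Perm Q => p z) (al_LL (L := L) x y)
  rw [← h1] at h2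
  simpa only [Perm.mul_apply] using h2

theorem e3b (x y z : Q) : L x (L y z) = Th L J x z (L (L x y) z) := by
  have h1 : L x * Rt L J z = Th L J x z * (Rt L J z * L x) := by
    have h2 : L x * Rt L J z = Rt L J z * L x * Th L J x z := by unfold Th; group
    rw [h2]
    calc Rt L J z * L x * Th L J x z = Rt L J z * (Th L J x z * L x) := by
          rw [h.eg_TL hK]; group
      _ = (Th L J x z * Rt L J z) * L x := by rw [h.eg_TR' hK]; group
      _ = _ := by group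
  have h2 := congrArg (fun p : Perm Q => p y) h1
  simp only [Perm.mul_apply] at h2
  rw [h.Rt_app, h.Rt_app] at h2
  exact h2

theorem e3c (x y z : Q) : L x (L y z) = Al L y z (L (L x y) z) := by
  have h1 := h.al_RR hK y z
  have h2 : (Al L y z)⁻¹ * Rt L J (L y z) = Rt L J (L y z) * (Al L y z)⁻¹ :=
    h.comR (G.inv_mem (h.al_mem y z)) (by rw [Perm.inv_eq_iff_eq, h.al_e])
      (by rw [Perm.inv_eq_iff_eq, h.al_xy hK])
  rw [← h2] at h1
  have h3 := congrArg (fun p : Perm Q => p x) h1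
  simp only [Perm.mul_apply] at h3
  rw [h.Rt_app, h.Rt_app, h.Rt_app] at h3
  rw [h3, apply_inv']

omit hK in
theorem al_conj {k : Perm Q} (hk : k ∈ G) (hke : k e = e) (x y : Q) :
    Al L (k x) (k y) = k * Al L x y * k⁻¹ := by
  unfold Al
  rw [← h.aut hk hke, ← h.equi k hk hke, ← h.equi k hk hke x, ← h.equi k hk hke y]
  group

omit hK in
theorem Th_conj {k : Perm Q} (hk : k ∈ G) (hke : k e = e) (x y : Q) :
    Th L J (k x) (k y) = k * Th L J x y * k⁻¹ := by
  have hR : Rt L J (k y) = k * Rt L J y * k⁻¹ := by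
    have h1 := h.comJ k hk hke
    have h2 : J (k y) = k (J y) := by
      have := congrArg (fun p : Perm Q => p y) h1
      simp only [Perm.mul_apply] at this
      exact this.symm
    unfold Rt
    rw [h2, ← h.equi k hk hke]
    have h3 : J * k = k * J := h1.symm
    have h4 : k⁻¹ * J = J * k⁻¹ := by
      rw [inv_mul_eq_iff_eq_mul, ← mul_assoc, ← h3]; group
    calc J * (k * L (J y) * k⁻¹) * J = (J * k) * L (J y) * (k⁻¹ * J) := by group
      _ = _ := by rw [h3, h4]; group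
  unfold Th
  rw [hR, ← h.equi k hk hke x]
  group

omit hK in
theorem al_S1 (y x : Q) : Al L y ((Tx L J y)⁻¹ x) = Al L y x := by
  have hk : (Tx L J y)⁻¹ ∈ G := G.inv_mem (h.Tx_mem y)
  have hke : (Tx L J y)⁻¹ e = e := by rw [Perm.inv_eq_iff_eq, h.Tx_e]
  have hky : (Tx L J y)⁻¹ y = y := by rw [Perm.inv_eq_iff_eq, h.Tx_x]
  have h1 := h.al_conj hk hke y x
  rw [hky] at h1
  have h2 := h.Tx_cen y _ (h.al_mem y x) (h.al_e y x) (h.al_x y x)
  rw [h1, inv_inv, mul_assoc, ← h2]; group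

theorem al_S2 (y x : Q) : Al L (Tx L J x y) x = Al L y x := by
  have h1 := h.al_conj (h.Tx_mem x) (h.Tx_e x) y x
  rw [h.Tx_x] at h1
  have h2 := h.Tx_cen x _ (h.al_mem y x) (h.al_e y x) (h.al_y hK y x)
  rw [h1, h2]; group

theorem Th_S1 (z y : Q) : Th L J z ((Tx L J z)⁻¹ y) = Th L J z y := by
  have hk : (Tx L J z)⁻¹ ∈ G := G.inv_mem (h.Tx_mem z)
  have hke : (Tx L J z)⁻¹ e = e := by rw [Perm.inv_eq_iff_eq, h.Tx_e]
  have hkz : (Tx L J z)⁻¹ z = z := by rw [Perm.inv_eq_iff_eq, h.Tx_x]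
  have h1 := h.Th_conj hk hke z y
  rw [hkz] at h1
  have h2 := h.Tx_cen z _ (h.Th_mem z y) (h.Th_e z y) (h.eg_fix_a hK z y)
  rw [h1, inv_inv, mul_assoc, ← h2]; group

omit hK in
/-- `z (T_z⁻¹ p) = p z` -/
theorem LS (z p : Q) : L z ((Tx L J z)⁻¹ p) = L p z := by
  have h1 := h.Tx_L z
  have h2 : L z * (Tx L J z)⁻¹ = Rt L J z := by
    have h3 : L z * (Tx L J z)⁻¹ = (Tx L J z)⁻¹ * L z := by
      rw [mul_inv_eq_iff_eq_mul, mul_assoc, ← h1]; group
    rw [h3]
    unfold Tx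
    have h4 := h.flex z
    calc (L z * (Rt L J z)⁻¹)⁻¹ * L z = Rt L J z * ((L z)⁻¹ * L z) := by group
      _ = _ := by group
  have h3 := congrArg (fun q : Perm Q => q p) h2
  simp only [Perm.mul_apply] at h3
  rw [h3, h.Rt_app]

/-- `a(z, x) = a(x, z)⁻¹` -/
theorem al_symm (x z : Q) : Al L x z = (Al L z x)⁻¹ := by
  ext g
  obtain ⟨y, hy⟩ : ∃ y, y = (L x)⁻¹ ((Rt L J z)⁻¹ g) := ⟨_, rfl⟩
  have hg : L (L x y) z = g := by
    rw [← h.Rt_app, hy, apply_inv', apply_inv']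
  -- (I)
  have hI : Al L y x g = Th L J y z g := by
    have h1 := h.e3a hK y ((Tx L J y)⁻¹ x) z
    have h2 := h.e3b hK y ((Tx L J y)⁻¹ x) z
    rw [h1, h.LS, h.al_S1, hg] at h2
    exact h2
  -- (II)
  have hII : Al L y x g = Al L x z g := by
    have h1 := h.e3a hK (Tx L J x y) x z
    have h2 := h.e3c hK (Tx L J x y) x z
    have h3 : L (Tx L J x y) x = L x y := by
      have h4 := h.LS x (Tx L J x y)
      rw [inv_apply'] at h4
      exact h4.symm
    rw [h1, h3, h.al_S2 hK, hg] at h2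
    exact h2
  -- (III)
  have hIII : (Al L z x)⁻¹ g = (Th L J z y)⁻¹ g := by
    have h1 := h.e3a hK z ((Tx L J z)⁻¹ x) ((Tx L J z)⁻¹ y)
    have h2 := h.e3b hK z ((Tx L J z)⁻¹ x) ((Tx L J z)⁻¹ y)
    have hk : (Tx L J z)⁻¹ ∈ G := G.inv_mem (h.Tx_mem z)
    have hke : (Tx L J z)⁻¹ e = e := by rw [Perm.inv_eq_iff_eq, h.Tx_e]
    rw [← h.aut hk hke, h.LS, hg] at h1 h2
    rw [h.al_S1] at h1
    rw [h.Th_S1 hK] at h2
    rw [Perm.inv_eq_iff_eq, ← Perm.mul_apply]
    conv_rhs => rw [h2]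
    rw [Perm.mul_apply, inv_apply', ← h1]
  rw [← hII, hI, h.eg_A hK z y, ← hIII]

/-- `th(a, b) = a(b, a)⁻¹ a(a, b)` -/
theorem th_al (a b : Q) : Th L J a b = (Al L b a)⁻¹ * Al L a b := by
  have h1 : L b a = Tx L J b (L a b) := by
    unfold Tx
    rw [Perm.mul_apply, ← h.Rt_app b a, inv_apply']
  have h2 : L (L b a) = Tx L J b * L (L a b) * (Tx L J b)⁻¹ := by
    rw [h1, h.equi _ (h.Tx_mem b) (h.Tx_e b)]
  have h3 := al_LL (L := L) b a
  have h4 := al_LL (L := L) a b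
  have h5 : L (L a b) = L a * L b * (Al L a b)⁻¹ := by rw [h4]; group
  have h6 := h.Tx_cen b _ (h.al_mem a b) (h.al_e a b) (h.al_y hK a b)
  have h7 := h.flex b
  rw [h2, h5] at h3
  have h8 : (Al L a b)⁻¹ * (Tx L J b)⁻¹ = (Tx L J b)⁻¹ * (Al L a b)⁻¹ := by
    rw [← mul_inv_rev, h6, mul_inv_rev]
  have h9 : Tx L J b * (L a * L b) * (Tx L J b)⁻¹ = L b * ((Rt L J b)⁻¹ * L a * Rt L J b) := by
    unfold Tx
    calc L b * (Rt L J b)⁻¹ * (L a * L b) * (L b * (Rt L J b)⁻¹)⁻¹ =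
        L b * (Rt L J b)⁻¹ * L a * (L b * Rt L J b) * (L b)⁻¹ := by group
      _ = _ := by rw [h7]; group
  have h10 : L b * L a = L b * ((Rt L J b)⁻¹ * L a * Rt L J b) * (Al L a b)⁻¹ * Al L b a := by
    rw [h3]
    calc Tx L J b * (L a * L b * (Al L a b)⁻¹) * (Tx L J b)⁻¹ * Al L b a =
        Tx L J b * (L a * L b) * ((Al L a b)⁻¹ * (Tx L J b)⁻¹) * Al L b a := by group
      _ = (Tx L J b * (L a * L b) * (Tx L J b)⁻¹) * (Al L a b)⁻¹ * Al L b a := by rw [h8]; group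
      _ = _ := by rw [h9]
  have h11 : Th L J a b * (Al L a b)⁻¹ * Al L b a = 1 := by
    have h12 : L a * (Th L J a b * (Al L a b)⁻¹ * Al L b a) = L a * 1 := by
      apply mul_left_cancel (a := L b)
      rw [mul_one, h10]
      unfold Th
      group
    exact mul_left_cancel h12
  calc Th L J a b = (Th L J a b * (Al L a b)⁻¹ * Al L b a) * ((Al L b a)⁻¹ * Al L a b) := by group
    _ = _ := by rw [h11, one_mul]

/-- `T_(ab) = T_a T_b` -/
theorem Tx_hom (a b : Q) : Tx L J (L a b) = Tx L J a * Tx L J b := by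
  have h1 := h.th_al hK a b
  have h2 := h.al_symm hK a b
  have h3 : Th L J a b = Al L a b * Al L a b := by rw [h1, ← h2]
  have h4 := al_LL (L := L) a b
  have h5 := h.al_RR hK a b
  have h6 : L (L a b) = L a * L b * (Al L a b)⁻¹ := by rw [h4]; group
  have h7 : Rt L J (L a b) = Rt L J b * Rt L J a * Al L a b := by rw [h5]; group
  have h8 : L b * (Rt L J a)⁻¹ = Th L J a b * (Rt L J a)⁻¹ * L b := by
    have h9 : (Rt L J a)⁻¹ * L b = L b * Th L J b a * (Rt L J a)⁻¹ := by unfold Th; group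
    have h10 := h.eg_A hK a b
    have h11 := h.eg_TL' hK a b
    have h12 := h.eg_TR hK a b
    rw [h10] at h9
    have h13 : L b * (Th L J a b)⁻¹ = (Th L J a b)⁻¹ * L b := by
      rw [mul_inv_eq_iff_eq_mul, mul_assoc, ← h11]; group
    rw [mul_assoc, h9, h13]; group
  have hay : Al L a b * L b = L b * Al L a b := h.comL (h.al_mem a b) (h.al_e a b) (h.al_y hK a b)
  have hay' : (Al L a b)⁻¹ * L b = L b * (Al L a b)⁻¹ := by
    rw [inv_mul_eq_iff_eq_mul, ← mul_assoc, hay]; group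
  have hX : L b * (Al L a b)⁻¹ * (Al L a b)⁻¹ = (Al L a b)⁻¹ * (Al L a b)⁻¹ * L b := by
    rw [← hay', mul_assoc, ← hay', ← mul_assoc]
  unfold Tx
  rw [h6, h7]
  calc L a * L b * (Al L a b)⁻¹ * (Rt L J b * Rt L J a * Al L a b)⁻¹ =
      L a * (L b * (Al L a b)⁻¹ * (Al L a b)⁻¹) * (Rt L J a)⁻¹ * (Rt L J b)⁻¹ := by group
    _ = L a * ((Al L a b)⁻¹ * (Al L a b)⁻¹ * L b) * (Rt L J a)⁻¹ * (Rt L J b)⁻¹ := by rw [hX]
    _ = L a * (Al L a b)⁻¹ * (Al L a b)⁻¹ * (L b * (Rt L J a)⁻¹) * (Rt L J b)⁻¹ := by group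
    _ = L a * (Rt L J a)⁻¹ * (L b * (Rt L J b)⁻¹) := by rw [h8, h3]; group

end

end AL0

/-- END GAME of case O1: if `th(a, b)` fixes `b` for all `a, b`, then a simple automorphic loop is
commutative or associative. -/
theorem AL.end_of_K7 (h : AL G L J e) (hK : ∀ a b, Th L J a b b = b) :
    (∀ x, Rt L J x = L x) ∨ Assoc L := by
  have h0 := h.al0
  have hT := h0.Tx_hom hK
  have hTe : Tx L J e = 1 := by
    have h1 := hT e e
    rw [h0.Le1, Perm.one_apply] at h1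
    exact (mul_eq_left.1 h1.symm)
  have hTk : ∀ k ∈ G, k e = e → ∀ x, Tx L J (k x) = k * Tx L J x * k⁻¹ := by
    intro k hk hke x
    have hR : Rt L J (k x) = k * Rt L J x * k⁻¹ := by
      have h1 := h0.comJ k hk hke
      have h2 : J (k x) = k (J x) := by
        have := congrArg (fun p : Perm Q => p x) h1
        simp only [Perm.mul_apply] at this
        exact this.symm
      unfold Rt
      rw [h2, ← h0.equi k hk hke]
      have h3 : J * k = k * J := h1.symm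
      have h4 : k⁻¹ * J = J * k⁻¹ := by
        rw [inv_mul_eq_iff_eq_mul, ← mul_assoc, ← h3]; group
      calc J * (k * L (J x) * k⁻¹) * J = (J * k) * L (J x) * (k⁻¹ * J) := by group
        _ = _ := by rw [h3, h4]; group
    unfold Tx
    rw [hR, ← h0.equi k hk hke x]; group
  have hinv : ∀ g ∈ G, ∀ a b, Tx L J a = Tx L J b → Tx L J (g a) = Tx L J (g b) := by
    intro g hg a b hab
    have hk : (L (g e))⁻¹ * g ∈ G := G.mul_mem (G.inv_mem (h.memL _)) hg
    have hke : ((L (g e))⁻¹ * g) e = e := by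
      rw [Perm.mul_apply, Perm.inv_eq_iff_eq, h.Le]
    have h2 : ∀ x, g x = L (g e) (((L (g e))⁻¹ * g) x) := by
      intro x
      rw [Perm.mul_apply, apply_inv']
    rw [h2 a, h2 b, hT, hT, hTk _ hk hke, hTk _ hk hke, hab]
  rcases h.prim (fun a b => Tx L J a = Tx L J b) ⟨fun _ => rfl, fun h1 => h1.symm,
    fun h1 h2 => h1.trans h2⟩ hinv with h1 | h1
  · right
    intro x y z
    apply h1
    rw [hT, hT, hT, hT, mul_assoc]
  · left
    intro x
    have h2 : Tx L J x = Tx L J e := h1 x e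
    rw [hTe] at h2
    have h3 := h0.L_eq x
    rw [h2, one_mul] at h3
    exact h3.symm

end ALoop
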